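import Pool.Agent.Lib.MP_51da40_an.AA.Main

/-! Counting the petals. -/

set_option autoImplicit false

open Polynomial Filter Topology Set

namespace Pool.Agent.Lib.MP_51da40_an.AA

/-- The root of unity number `j`. -/
noncomputable def om (A j : ℕ) : ℂ := Complex.exp ((2 * Real.pi * j / A : ℝ) * Complex.I)

lemma om_norm (A j : ℕ) : ‖om A j‖ = 1 := Complex.norm_exp_ofReal_mul_I _

lemma om_re (A j : ℕ) : (om A j).re = Real.cos (2 * Real.pi * j / A) :=
  Complex.exp_ofReal_mul_I_re _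

lemma om_pow {A : ℕ} (hA : 0 < A) (j : ℕ) : om A j ^ A = 1 := by
  have : (A : ℂ) ≠ 0 := Nat.cast_ne_zero.2 hA.ne'
  rw [om, ← Complex.exp_nat_mul, ← Complex.exp_nat_mul_two_pi_mul_I j]
  congr 1
  push_cast
  field_simp

lemma om_sep {A i j : ℕ} (h : i < j) (hj : j < A) :
    (om A j / om A i).re ≤ Real.cos (Real.pi / A) := by
  have A0 : (0 : ℝ) < A := by exact_mod_cast (Nat.zero_le j).trans_lt hj
  have a1 : (i : ℝ) + 1 ≤ j := by exact_mod_cast h
  have a2 : (j : ℝ) + 1 ≤ A := by exact_mod_cast hj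
  have a3 : (0 : ℝ) ≤ i := Nat.cast_nonneg i
  have p := Real.pi_pos
  rw [om, om, ← Complex.exp_sub, ← sub_mul, ← Complex.ofReal_sub, Complex.exp_ofReal_mul_I_re]
  refine cos_le (by positivity) ?_ ?_
  · rw [← sub_div]
    exact div_le_div_of_nonneg_right (by nlinarith) A0.le
  · rw [← sub_div, le_sub_iff_add_le, ← add_div, div_le_iff₀ A0]
    nlinarith

lemma count {F μ : ℂ → ℂ} {A : ℕ} {R T t x y β : ℝ} (hA : 0 < A) (t0 : 0 < t) (tR : t ≤ R)
    (RT : R < T) (hT : 5 ≤ (T / R) ^ A) (y0 : 0 ≤ y) (hy : T * y ≤ x)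
    (hF : ∀ z, F z = (z / R) ^ A * (1 + μ z) - (1 + (t / R) ^ A / 2 : ℝ))
    (hμ : ∀ z : ℂ, ‖z‖ ≤ T → z.re ≤ x → ‖μ z‖ ≤ 1 / 4) (b0 : 0 < β)
    (wy : Real.cos (2 * Real.pi * β) + Real.pi / A ≤ y) :
    ∃ s : Finset (Set ℂ), (∀ C ∈ s, (∃ z : ℂ, ‖F z‖ ≤ 1 ∧
      connectedComponentIn {w : ℂ | ‖F w‖ ≤ 1} z = C) ∧ R - t ≤ Metric.diam C) ∧
        (1 - 2 * β) * A - 1 ≤ s.card := by
  classical
  have R0 : 0 < R := t0.trans_le tR
  have A0 : (0 : ℝ) < A := by exact_mod_cast hA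
  have p := Real.pi_pos
  obtain ⟨a, ha⟩ : ∃ a : ℕ, a = ⌈β * A⌉₊ := ⟨_, rfl⟩
  have a1 : β * A ≤ a := ha ▸ Nat.le_ceil _
  have a2 : (a : ℝ) < β * A + 1 := ha ▸ Nat.ceil_lt_add_one (by positivity)
  have a0 : 0 < a := by
    have : (0 : ℝ) < a := lt_of_lt_of_le (by positivity) a1
    exact_mod_cast this
  have key : ∀ j ∈ Finset.Icc a (A - a), _ := fun j hj =>
    petals hA t0 tR RT hT y0 hy hF hμ (om_norm A j) (om_pow hA j) (by
      obtain ⟨j1, j2⟩ := Finset.mem_Icc.1 hj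
      have j3 : (a : ℝ) ≤ j := by exact_mod_cast j1
      have j4 : (j : ℝ) + a ≤ A := by exact_mod_cast (show j + a ≤ A by omega)
      refine le_trans (add_le_add ?_ le_rfl) wy
      rw [om_re]
      refine cos_le (by positivity) ?_ ?_
      · rw [le_div_iff₀ A0]
        nlinarith
      · rw [div_le_iff₀ A0]
        nlinarith)
  have sep : ∀ i ∈ Finset.Icc a (A - a), ∀ j ∈ Finset.Icc a (A - a), i < j →
      connectedComponentIn {w | ‖F w‖ ≤ 1} (R * om A i) ≠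
        connectedComponentIn {w | ‖F w‖ ≤ 1} (R * om A j) := by
    intro i hi j hj h e
    have := (key i hi).2.2 (R * om A j) (e ▸ mem_connectedComponentIn (key j hj).1)
    rw [norm_mul, om_norm, mul_one, Complex.norm_real, Real.norm_of_nonneg R0.le, mul_div_assoc,
      Complex.re_ofReal_mul] at this
    have h2 := om_sep h (show j < A by have := (Finset.mem_Icc.1 hj).2; omega)
    nlinarith
  refine ⟨(Finset.Icc a (A - a)).image fun j => connectedComponentIn {w | ‖F w‖ ≤ 1} (R * om A j),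
    fun C hC => ?_, ?_⟩
  · obtain ⟨j, hj, rfl⟩ := Finset.mem_image.1 hC
    exact ⟨⟨_, (key j hj).1, rfl⟩, (key j hj).2.1⟩
  rw [Finset.card_image_of_injOn fun i hi j hj e => ?_, Nat.card_Icc]
  · have : (A : ℝ) + 1 ≤ (A - a + 1 - a : ℕ) + 2 * a := by
      exact_mod_cast (show A + 1 ≤ A - a + 1 - a + 2 * a by omega)
    linarith
  · rcases lt_trichotomy i j with h | h | h
    · exact absurd e (sep i hi j hj h)
    · exact h
    · exact absurd e.symm (sep j hj i hi h)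

theorem main {β : ℝ} (b0 : 0 < β) (b1 : β ≤ 1 / 2) : ∃ c : ℝ, 0 < c ∧ ∃ N : ℕ, ∀ n : ℕ, N ≤ n →
    ∃ f : ℂ[X], f.Monic ∧ f.natDegree = n ∧ ∃ s : Finset (Set ℂ),
      (∀ C ∈ s, (∃ z : ℂ, ‖f.eval z‖ ≤ 1 ∧
        connectedComponentIn {w : ℂ | ‖f.eval w‖ ≤ 1} z = C) ∧ 1 + c < Metric.diam C) ∧
      (1 - 4 * β) * n ≤ s.card := by
  have p := Real.pi_pos
  obtain ⟨u, hu⟩ : ∃ u : ℝ, u = Real.cos (2 * Real.pi * β) := ⟨_, rfl⟩
  have u0 : -1 ≤ u := hu ▸ Real.neg_one_le_cos _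
  have u1 : u < 1 := by
    rw [hu, ← Real.cos_zero]
    exact Real.cos_lt_cos_of_nonneg_of_le_pi le_rfl (by nlinarith) (by positivity)
  obtain ⟨Q, κ, qm, qd, k0, k1, hQ⟩ :=
    exists_small (x := (3 + u) / 4) (by linarith) (by linarith)
  obtain ⟨M, hM⟩ := exists_nat_gt (Q.natDegree / β)
  have M0 : 0 < M := by
    have : (0 : ℝ) < M := lt_of_le_of_lt (by positivity) hM
    exact_mod_cast this
  have c1 : ContinuousAt (fun r : ℝ => r ^ M * κ) 1 := by fun_prop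
  have c2 : ContinuousAt (fun r : ℝ => r * ((1 + u) / 2)) 1 := by fun_prop
  have e1 := c1.eventually_lt (continuousAt_const (y := 1)) (by simpa using k1)
  have e2 := c2.eventually_lt (continuousAt_const (y := (3 + u) / 4)) (by
    simp only [one_mul]
    linarith)
  obtain ⟨T, ⟨⟨hT, T2⟩, T3⟩, T1⟩ := ((((hQ.and e1).and e2).filter_mono
    (nhdsWithin_le_nhds (s := Ioi 1))).and self_mem_nhdsWithin).exists
  have T1 : 1 < T := T1
  obtain ⟨R, hR⟩ : ∃ R : ℝ, R = (1 + T) / 2 := ⟨_, rfl⟩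
  have R1 : 1 < R := by linarith
  have RT : R < T := by linarith
  have R0 : 0 < R := by linarith
  have l1 : Tendsto (fun k : ℕ => T ^ M * (T ^ M * κ) ^ k) atTop (𝓝 0) := by
    simpa using (tendsto_pow_atTop_nhds_zero_of_lt_one (by positivity) T2).const_mul (T ^ M)
  have l2 := (Nat.tendsto_div_const_atTop M0.ne').eventually
    ((l1.eventually_lt_const (show (0 : ℝ) < 1 / 4 by norm_num)).and (eventually_gt_atTop 0))
  have l3 := (tendsto_pow_atTop_atTop_of_one_lt ((one_lt_div R0).2 RT)).eventually_ge_atTop 5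
  have l4 := (tendsto_const_div_atTop_nhds_zero_nat Real.pi).eventually_lt_const
    (show 0 < (1 - u) / 2 by linarith)
  obtain ⟨A0, hA0⟩ := eventually_atTop.1 ((l3.and l4).and (eventually_gt_atTop 0))
  have l5 := (tendsto_natCast_atTop_atTop (R := ℝ)).eventually_ge_atTop (1 / β)
  obtain ⟨N, hN⟩ := eventually_atTop.1 ((l2.and l5).and (eventually_ge_atTop (2 * A0)))
  refine ⟨(R - 1) / 4, by linarith, N, fun n hn => ?_⟩
  obtain ⟨⟨⟨n1, n2⟩, n3⟩, n4⟩ := hN n hn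
  obtain ⟨k, hk⟩ : ∃ k, k = n / M := ⟨_, rfl⟩
  rw [← hk] at n1 n2
  have k2 : M * k ≤ n := hk ▸ Nat.mul_div_le n M
  have k3 : n < M * (k + 1) := hk ▸ Nat.lt_mul_div_succ n M0
  have k4 : ((Q.natDegree * k : ℕ) : ℝ) ≤ β * n := by
    have a1 : (M : ℝ) * k ≤ n := by exact_mod_cast k2
    have a2 := (div_lt_iff₀ b0).1 hM
    have a3 : (0 : ℝ) ≤ k := Nat.cast_nonneg k
    push_cast
    nlinarith
  have n0 : (0 : ℝ) ≤ n := Nat.cast_nonneg n
  have k5 : 2 * (Q.natDegree * k) ≤ n := by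
    have : (2 : ℝ) * (Q.natDegree * k : ℕ) ≤ n := by nlinarith
    exact_mod_cast this
  obtain ⟨A, hA⟩ : ∃ A, A + Q.natDegree * k = n := ⟨n - Q.natDegree * k, by omega⟩
  obtain ⟨⟨A1, A2⟩, A3⟩ := hA0 A (by omega)
  have d0 : 0 < (Q ^ k).natDegree := by
    rw [qm.natDegree_pow]
    positivity
  have m1 : (Q ^ k + C ((R : ℂ) ^ A)⁻¹).Monic :=
    (qm.pow k).add_of_left (degree_C_le.trans_lt (natDegree_pos_iff_degree_pos.1 d0))
  have m2 := (monic_X_pow A).mul m1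
  have d2 : (X ^ A * (Q ^ k + C ((R : ℂ) ^ A)⁻¹)).natDegree = n := by
    rw [(monic_X_pow A).natDegree_mul m1, natDegree_X_pow, natDegree_add_C, qm.natDegree_pow,
      mul_comm k, hA]
  obtain ⟨s, s1, s2⟩ := count (β := β) (μ := fun z => (R : ℂ) ^ A * Q.eval z ^ k)
    (F := fun z => (X ^ A * (Q ^ k + C ((R : ℂ) ^ A)⁻¹) -
      C ((1 + ((R - 1) / 2 / R) ^ A / 2 : ℝ) : ℂ)).eval z) (t := (R - 1) / 2)
    A3 (by linarith) (by linarith) RT A1 (by linarith) T3.le (fun z => by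
      have : (R : ℂ) ≠ 0 := Complex.ofReal_ne_zero.2 R0.ne'
      simp only [eval_sub, eval_mul, eval_add, eval_pow, eval_X, eval_C, div_pow z]
      field_simp
      ring) (fun z z1 z2 => by
      rw [norm_mul, norm_pow, norm_pow, Complex.norm_real, Real.norm_of_nonneg R0.le]
      have a1 : R ^ A ≤ T ^ (M * (k + 1)) :=
        (pow_le_pow_left₀ R0.le RT.le A).trans (pow_le_pow_right₀ T1.le (by omega))
      refine (mul_le_mul a1 (pow_le_pow_left₀ (norm_nonneg _) (hT z z1 z2) k) (by positivity)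
        (by positivity)).trans (le_of_eq_of_le ?_ n1.le)
      ring) b0 (by rw [← hu]; linarith)
  refine ⟨_, m2.sub_of_left (degree_C_le.trans_lt (natDegree_pos_iff_degree_pos.1 (by omega))),
    by rw [natDegree_sub_C, d2], s, fun C hC => ⟨(s1 C hC).1, by linarith [(s1 C hC).2]⟩, ?_⟩
  have a1 : (A : ℝ) + (Q.natDegree * k : ℕ) = n := by exact_mod_cast hA
  have a2 := (div_le_iff₀ b0).1 n3
  have a3 : (1 - 2 * β) * ((1 - β) * n) ≤ (1 - 2 * β) * A :=
    mul_le_mul_of_nonneg_left (by linarith) (by linarith)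
  nlinarith [mul_nonneg (sq_nonneg β) n0]

end Pool.Agent.Lib.MP_51da40_an.AA
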