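import Pool.Agent.Lib.MP_51da40_an.AA.Small

/-! Almost all components of a lemniscate can have diameter greater than `1 + c`. -/

set_option autoImplicit false

open Polynomial Filter Topology Set

namespace Pool.Agent.Lib.MP_51da40_an.AA

/-- The petals of a perturbation of `(z / R) ^ A - (1 + ε)`. -/
lemma petals {F μ : ℂ → ℂ} {A : ℕ} {R T t x y : ℝ} (hA : 0 < A) (t0 : 0 < t) (tR : t ≤ R)
    (RT : R < T) (hT : 5 ≤ (T / R) ^ A) (y0 : 0 ≤ y) (hy : T * y ≤ x)
    (hF : ∀ z, F z = (z / R) ^ A * (1 + μ z) - (1 + (t / R) ^ A / 2 : ℝ))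
    (hμ : ∀ z : ℂ, ‖z‖ ≤ T → z.re ≤ x → ‖μ z‖ ≤ 1 / 4) {ω : ℂ} (w1 : ‖ω‖ = 1) (wA : ω ^ A = 1)
    (wy : ω.re + Real.pi / A ≤ y) :
    ‖F (R * ω)‖ ≤ 1 ∧ R - t ≤ Metric.diam (connectedComponentIn {w | ‖F w‖ ≤ 1} (R * ω)) ∧
      ∀ z ∈ connectedComponentIn {w | ‖F w‖ ≤ 1} (R * ω),
        ‖z‖ * Real.cos (Real.pi / A) < (z / ω).re := by
  have R0 : 0 < R := t0.trans_le tR
  have A0 : (0 : ℝ) < A := by exact_mod_cast hA
  have p0 : 0 < Real.pi / A := div_pos Real.pi_pos A0
  have w0 : ω ≠ 0 := fun h => by simp [h] at w1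
  obtain ⟨e, he⟩ : ∃ e : ℝ, e = (t / R) ^ A / 2 := ⟨_, rfl⟩
  have e0 : 0 < e := by rw [he]; positivity
  have e1 : e ≤ 1 / 2 := by
    have := pow_le_one₀ (n := A) (div_pos t0 R0).le ((div_le_one R0).2 tR)
    linarith
  rw [← he] at hF
  have ray : ∀ s ∈ Icc t R, ‖F (s * ω)‖ ≤ 1 := by
    intro s hs
    have s0 : 0 < s := t0.trans_le hs.1
    have n1 : ‖(s : ℂ) * ω‖ = s := by
      rw [norm_mul, w1, mul_one, Complex.norm_real, Real.norm_of_nonneg s0.le]
    have m := hμ (s * ω) (by rw [n1]; linarith [hs.2]) (by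
      rw [Complex.re_ofReal_mul]
      nlinarith [hs.2])
    have a1 : (s / R) ^ A ≤ 1 := pow_le_one₀ (div_pos s0 R0).le ((div_le_one R0).2 hs.2)
    have a2 : 2 * e ≤ (s / R) ^ A := by
      have := pow_le_pow_left₀ (div_pos t0 R0).le (div_le_div_of_nonneg_right hs.1 R0.le) A
      linarith
    have a3 : F (s * ω) = (((s / R) ^ A - (1 + e) : ℝ) : ℂ) + ((s / R) ^ A : ℝ) * μ (s * ω) := by
      rw [hF, mul_div_right_comm, mul_pow, wA]
      push_cast
      ring
    rw [a3]
    refine (norm_add_le _ _).trans ?_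
    rw [norm_mul, Complex.norm_real, Complex.norm_real, Real.norm_of_nonpos (by linarith),
      Real.norm_of_nonneg (by linarith)]
    nlinarith
  have hR := ray R ⟨tR, le_rfl⟩
  have nR : ‖(R : ℂ) * ω‖ = R := by
    rw [norm_mul, w1, mul_one, Complex.norm_real, Real.norm_of_nonneg R0.le]
  have trap : connectedComponentIn {w | ‖F w‖ ≤ 1} (R * ω) ⊆
      {z | ‖z‖ < T} ∩ {z | ‖z‖ * Real.cos (Real.pi / A) < (z / ω).re} := by
    have c1 : Continuous fun z : ℂ => ‖z‖ * Real.cos (Real.pi / A) := by fun_prop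
    have c2 : Continuous fun z : ℂ => (z / ω).re := by fun_prop
    refine isPreconnected_connectedComponentIn.subset_of_closure_inter_subset
      ((isOpen_lt continuous_norm continuous_const).inter (isOpen_lt c1 c2))
      ⟨R * ω, mem_connectedComponentIn hR, ?_, ?_⟩ ?_
    · rw [mem_ofPred_eq, nR]
      exact RT
    · rw [mem_ofPred_eq, nR, mul_div_assoc, div_self w0, mul_one, Complex.ofReal_re]
      refine mul_lt_of_lt_one_right R0 ?_
      rw [← Real.cos_zero]
      exact Real.cos_lt_cos_of_nonneg_of_le_pi le_rfl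
        (div_le_self Real.pi_pos.le (by exact_mod_cast hA)) p0
    rintro z ⟨hz, hz'⟩
    have z0 : ‖F z‖ ≤ 1 := connectedComponentIn_subset {w | ‖F w‖ ≤ 1} _ hz'
    have z1 : ‖z‖ ≤ T := closure_lt_subset_le continuous_norm continuous_const
      (closure_mono inter_subset_left hz)
    have z2 : ‖z‖ * Real.cos (Real.pi / A) ≤ (z / ω).re := closure_lt_subset_le c1 c2
      (closure_mono inter_subset_right hz)
    have nz : ‖z / ω‖ = ‖z‖ := by rw [norm_div, w1, div_one]
    have z3 : z.re ≤ x := by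
      have b1 : ‖z / ω - ‖z‖‖ ≤ ‖z‖ * (Real.pi / A) := by
        refine (abs_le_of_sq_le_sq' ?_ (by positivity)).2
        have q1 : ‖z / ω - ‖z‖‖ ^ 2 = ‖z / ω‖ ^ 2 - 2 * ‖z‖ * (z / ω).re + ‖z‖ ^ 2 := by
          rw [Complex.sq_norm, Complex.sq_norm (z / ω), Complex.normSq_apply, Complex.normSq_apply]
          simp only [Complex.sub_re, Complex.sub_im, Complex.ofReal_re, Complex.ofReal_im]
          ring
        rw [q1, nz]
        nlinarith [Real.one_sub_sq_div_two_le_cos (x := Real.pi / A), norm_nonneg z,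
          mul_le_mul_of_nonneg_left z2 (norm_nonneg z), sq_nonneg ‖z‖]
      have b2 : z = (z / ω - ‖z‖) * ω + ‖z‖ * ω := by field_simp; ring
      have b3 : ((z / ω - ‖z‖) * ω).re ≤ ‖z‖ * (Real.pi / A) :=
        (Complex.re_le_norm _).trans (by rwa [norm_mul, w1, mul_one])
      have b4 : z.re = ((z / ω - ‖z‖) * ω).re + ‖z‖ * ω.re := by
        conv_lhs => rw [b2, Complex.add_re, Complex.re_ofReal_mul]
      nlinarith [mul_le_mul_of_nonneg_left wy (norm_nonneg z), mul_le_mul_of_nonneg_right z1 y0]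
    have m := hμ z z1 z3
    refine ⟨z1.lt_of_ne fun h => ?_, z2.lt_of_ne fun h => ?_⟩
    · have b1 : 3 / 4 ≤ ‖1 + μ z‖ := by
        have := norm_sub_le (1 + μ z) (μ z)
        rw [add_sub_cancel_right, norm_one] at this
        linarith
      have b2 := norm_sub_norm_le ((z / R) ^ A * (1 + μ z)) ((1 + e : ℝ) : ℂ)
      rw [← hF, norm_mul, norm_pow, norm_div, h, Complex.norm_real, Complex.norm_real,
        Real.norm_of_nonneg R0.le, Real.norm_of_nonneg (by linarith)] at b2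
      nlinarith
    · have b1 := pow_edge hA (u := z / ω) (by rw [nz, h])
      rw [div_pow, wA, div_one, nz] at b1
      have b2 : F z = -(((‖z‖ / R) ^ A : ℝ) * (1 + μ z)) - (1 + e : ℝ) := by
        rw [hF, div_pow, b1]
        push_cast
        ring
      have b3 := (Complex.abs_re_le_norm (F z)).trans z0
      rw [b2, Complex.sub_re, Complex.neg_re, Complex.re_ofReal_mul, Complex.ofReal_re,
        Complex.add_re, Complex.one_re] at b3
      have b4 := (abs_le.1 ((Complex.abs_re_le_norm (μ z)).trans m)).1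
      have b5 : 0 ≤ (‖z‖ / R) ^ A * (1 + (μ z).re) := mul_nonneg (by positivity) (by linarith)
      linarith [(abs_le.1 b3).1]
  refine ⟨hR, ?_, fun z hz => (trap hz).2⟩
  have sub : (fun s : ℝ => (s : ℂ) * ω) '' Icc t R ⊆
      connectedComponentIn {w | ‖F w‖ ≤ 1} (R * ω) :=
    (isPreconnected_Icc.image _ (by fun_prop)).subset_connectedComponentIn
      ⟨R, ⟨tR, le_rfl⟩, rfl⟩ (by rintro _ ⟨s, hs, rfl⟩; exact ray s hs)
  have bd : Bornology.IsBounded (connectedComponentIn {w | ‖F w‖ ≤ 1} (R * ω)) :=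
    (Metric.isBounded_ball (x := 0) (r := T)).subset fun z hz =>
      mem_ball_zero_iff.2 (trap hz).1
  have := Metric.dist_le_diam_of_mem bd (sub ⟨R, ⟨tR, le_rfl⟩, rfl⟩) (sub ⟨t, ⟨le_rfl, tR⟩, rfl⟩)
  rwa [dist_eq_norm, ← sub_mul, norm_mul, w1, mul_one, ← Complex.ofReal_sub, Complex.norm_real,
    Real.norm_of_nonneg (by linarith)] at this

end Pool.Agent.Lib.MP_51da40_an.AA
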