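import Mathlib

/-! A monic polynomial that is small on a disc minus a cap, and two facts on polar coordinates. -/

set_option autoImplicit false

open Polynomial Filter Topology

namespace Pool.Agent.Lib.MP_51da40_an.AA

lemma exists_small {x : ℝ} (h0 : 0 ≤ x) (h1 : x < 1) : ∃ (Q : ℂ[X]) (κ : ℝ), Q.Monic ∧
    0 < Q.natDegree ∧ 0 ≤ κ ∧ κ < 1 ∧
      ∀ᶠ r in 𝓝 (1 : ℝ), ∀ z : ℂ, ‖z‖ ≤ r → z.re ≤ x → ‖Q.eval z‖ ≤ κ := by
  obtain ⟨g, hg⟩ : ∃ g : ℝ, g = (1 - x) / 3 := ⟨_, rfl⟩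
  have g0 : 0 < g := by rw [hg]; linarith
  have g1 : g ≤ 1 / 3 := by rw [hg]; linarith
  have g2 : 0 < g ^ 2 := by positivity
  have g3 : g ^ 2 ≤ 1 / 9 := by nlinarith
  obtain ⟨ρ, hρ⟩ : ∃ ρ : ℝ, ρ = x + 2 * g := ⟨_, rfl⟩
  have r0 : 0 < ρ := by rw [hρ]; linarith
  have r1 : ρ < 1 := by rw [hρ, hg]; linarith
  obtain ⟨L, hL⟩ := exists_pow_lt_of_lt_one (show 0 < g ^ 2 / 18 by positivity) r1
  have L0 : L ≠ 0 := by
    rintro rfl
    rw [pow_zero] at hL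
    linarith
  obtain ⟨G, hG⟩ : ∃ G : ℂ[X], G = ∑ i ∈ Finset.range L, C ((g : ℂ) * (ρ : ℂ) ^ (L - 1 - i)) * X ^ i :=
    ⟨_, rfl⟩
  have dG : G.degree < L := by
    rw [hG]
    refine (degree_sum_le _ _).trans_lt ((Finset.sup_lt_iff (WithBot.bot_lt_coe L)).2 ?_)
    intro i hi
    exact (degree_C_mul_X_pow_le i _).trans_lt (WithBot.coe_lt_coe.2 (Finset.mem_range.1 hi))
  have eG : ∀ z : ℂ, (X ^ L + G).eval z * (z - ρ) = z ^ L * (z - (ρ - g : ℝ)) - g * ρ ^ L := by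
    intro z
    have := Commute.geom_sum₂_mul (Commute.all z (ρ : ℂ)) L
    have e : G.eval z = g * ∑ i ∈ Finset.range L, z ^ i * (ρ : ℂ) ^ (L - 1 - i) := by
      rw [hG, eval_finsetSum, Finset.mul_sum]
      refine Finset.sum_congr rfl fun i _ => ?_
      rw [eval_mul, eval_C, eval_pow, eval_X]
      ring
    rw [eval_add, eval_pow, eval_X, e, add_mul, mul_assoc, this]
    push_cast
    ring
  refine ⟨X ^ L + G, 1 - g ^ 2 / 18, monic_X_pow_add dG, ?_, by linarith, by linarith, ?_⟩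
  · rw [natDegree_add_eq_left_of_degree_lt (by rwa [degree_X_pow]), natDegree_X_pow]
    exact Nat.pos_of_ne_zero L0
  have c1 : ContinuousAt (fun r : ℝ => r ^ L * (1 - g ^ 2 / 6)) 1 := by fun_prop
  have e1 := c1.eventually_lt (continuousAt_const (y := 1 - g ^ 2 / 12)) (by
    simp only [one_pow, one_mul]
    linarith)
  filter_upwards [e1, eventually_lt_nhds (show (1 : ℝ) < 2 by norm_num)] with r hr hr2 z hz hx
  have n1 : 2 * g ≤ ‖z - ρ‖ := by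
    have := Complex.abs_re_le_norm (z - ρ)
    rw [Complex.sub_re, Complex.ofReal_re] at this
    linarith [neg_abs_le (z.re - ρ)]
  have n2 : ‖z - ρ‖ ≤ 3 := by
    have := norm_sub_le z (ρ : ℂ)
    rw [Complex.norm_real, Real.norm_of_nonneg r0.le] at this
    linarith
  have n3 : ‖z - (ρ - g : ℝ)‖ ≤ (1 - g ^ 2 / 6) * ‖z - ρ‖ := by
    have k0 : 0 ≤ 1 - g ^ 2 / 6 := by linarith
    refine pow_le_pow_left₀ (norm_nonneg _) le_rfl 2 |>.trans ?_ |> (abs_le_of_sq_le_sq' ·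
      (mul_nonneg k0 (norm_nonneg _))) |>.2
    have s1 : ‖z - (ρ - g : ℝ)‖ ^ 2 = ‖z - ρ‖ ^ 2 - g * (2 * ρ - g - 2 * z.re) := by
      rw [Complex.sq_norm, Complex.sq_norm, Complex.normSq_apply, Complex.normSq_apply]
      simp only [Complex.sub_re, Complex.sub_im, Complex.ofReal_re, Complex.ofReal_im]
      ring
    have s2 : ‖z - ρ‖ ^ 2 ≤ 9 := by nlinarith [norm_nonneg (z - ρ)]
    have s3 : 3 * g ^ 2 ≤ g * (2 * ρ - g - 2 * z.re) := by rw [hρ]; nlinarith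
    rw [s1, mul_pow]
    nlinarith [mul_le_mul_of_nonneg_left s2 g2.le, mul_nonneg (sq_nonneg (g ^ 2))
      (sq_nonneg ‖z - ρ‖)]
  have n4 : ‖(X ^ L + G).eval z‖ * ‖z - ρ‖ ≤
      r ^ L * ((1 - g ^ 2 / 6) * ‖z - ρ‖) + g * ρ ^ L := by
    rw [← norm_mul, eG]
    refine (norm_sub_le _ _).trans (add_le_add ?_ ?_)
    · rw [norm_mul, norm_pow]
      exact mul_le_mul (pow_le_pow_left₀ (norm_nonneg _) hz L) n3 (norm_nonneg _)
        (pow_nonneg ((norm_nonneg _).trans hz) L)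
    · rw [norm_mul, norm_pow, Complex.norm_real, Complex.norm_real, Real.norm_of_nonneg r0.le,
        Real.norm_of_nonneg g0.le]
  refine le_of_mul_le_mul_right (n4.trans ?_) (show 0 < ‖z - ρ‖ by linarith)
  have n5 : g * ρ ^ L ≤ g ^ 2 / 36 * ‖z - ρ‖ := by nlinarith
  nlinarith [mul_le_mul_of_nonneg_right hr.le (norm_nonneg (z - ρ))]

lemma cos_le {a θ : ℝ} (h0 : 0 ≤ a) (h1 : a ≤ θ) (h2 : θ ≤ 2 * Real.pi - a) :
    Real.cos θ ≤ Real.cos a := by
  rcases le_total θ Real.pi with h | h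
  · exact Real.cos_le_cos_of_nonneg_of_le_pi h0 h h1
  · rw [← Real.cos_two_pi_sub θ]
    exact Real.cos_le_cos_of_nonneg_of_le_pi h0 (by linarith) (by linarith)

lemma pow_edge {A : ℕ} (hA : 0 < A) {u : ℂ} (h : u.re = ‖u‖ * Real.cos (Real.pi / A)) :
    u ^ A = -((‖u‖ ^ A : ℝ) : ℂ) := by
  rcases eq_or_ne u 0 with rfl | h0
  · simp [hA.ne']
  have A0 : (0 : ℝ) < A := by exact_mod_cast hA
  have A1 : (1 : ℝ) ≤ A := by exact_mod_cast hA
  have n0 : ‖u‖ ≠ 0 := norm_ne_zero_iff.2 h0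
  have e1 : Real.cos |u.arg| = Real.cos (Real.pi / A) := by
    rw [Real.cos_abs, Complex.cos_arg h0, h, mul_div_cancel_left₀ _ n0]
  have e2 : |u.arg| = Real.pi / A :=
    Real.injOn_cos ⟨abs_nonneg _, Complex.abs_arg_le_pi u⟩
      ⟨by positivity, div_le_self Real.pi_pos.le A1⟩ e1
  have e3 : Complex.exp (u.arg * Complex.I) ^ A = -1 := by
    rw [← Complex.exp_nat_mul, ← mul_assoc, ← Complex.ofReal_natCast, ← Complex.ofReal_mul]
    rcases abs_eq (by positivity : 0 ≤ Real.pi / A) |>.1 e2 with e | e <;> rw [e]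
    · rw [mul_div_cancel₀ _ A0.ne', Complex.exp_pi_mul_I]
    · rw [mul_neg, mul_div_cancel₀ _ A0.ne', Complex.ofReal_neg, neg_mul, Complex.exp_neg,
        Complex.exp_pi_mul_I]
      norm_num
  conv_lhs => rw [← Complex.norm_mul_exp_arg_mul_I u, mul_pow, e3]
  push_cast
  ring

end Pool.Agent.Lib.MP_51da40_an.AA
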